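import Pool.Agent.MWK.Stmts

/-!
# MWK, row CH2: a chain which passes a second occurrence of a letter
-/

set_option autoImplicit false

namespace Pool.Agent.MWK.H36

open Pool.Agent.Helper14_MV Pool.Agent.Helper2_MV

theorem exists_common {w : List ℕ} {k d y t t' : ℕ} (ht : Dp k w t) (ht' : Dp k w t')
    (h1 : (pre w t).count d = 1) (h2 : (pre w t').count y = 1) (h3 : y ∈ pre w t)
    (h4 : d ∈ pre w t') : ∃ s, Dp k w s ∧ (pre w s).count y = 1 ∧ (pre w s).count d = 1 := by
  have p3 : 0 < (pre w t).count y := List.count_pos_iff.2 h3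
  have p4 : 0 < (pre w t').count d := List.count_pos_iff.2 h4
  by_cases he : t = t'
  · subst he
    exact ⟨t, ht, h2, h1⟩
  · rcases pre_total ht.mem he with h | h
    · have := count_pre_mono h y
      exact ⟨t, ht, by omega, h1⟩
    · have := count_pre_mono h d
      exact ⟨t', ht', h2, by omega⟩

theorem ch2 (hCHE : CheStmt) : Ch2Stmt := by
  intro n
  induction n with
  | zero =>
    intro f w d y hd hd' hy hy' hdy H
    have hy1 : w.count y = 1 ∨ ∃ t', Dp (f + 1) w t' ∧ (pre w t').count y = 1 := hy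
    have hd1 : w.count d = 1 ∨ ∃ t, Dp (f + 1) w t ∧ (pre w t).count d = 1 := hd
    rcases hy1 with hy1 | ⟨t', ht', hy1⟩
    · exact absurd (Dp.simple hy1) hy'
    rcases hd1 with hd1 | ⟨t, ht, hd1⟩
    · exact absurd (Dp.simple hd1) hd'
    have h3 : y ∈ pre w t := H t ht (mem_pre_of_count hd1)
    have h4 : d ∈ pre w t' := pre_trans hdy (mem_pre_of_count hy1)
    obtain ⟨s, hs, hsy, hsd⟩ := exists_common ht ht' hd1 hy1 h3 h4
    have hs' : ¬ Dp f w s := fun h => hy' (Dp.step h hsy)
    obtain ⟨cs, hl, hc, hm⟩ := hCHE f w s hs hs'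
    refine ⟨s :: cs, by simp [hl], ⟨?_, hs.mem, hc⟩, ?_, s, rfl, hsd⟩
    · intro z hz
      rw [List.mem_singleton.1 hz]
      exact hsy
    · intro c hcs
      rcases List.mem_cons.1 hcs with rfl | h
      · exact hs
      · exact (hm c h).mono
  | succ n ih =>
    intro f w d y hd hd' hy hy' hdy H
    have hy1 : w.count y = 1 ∨ ∃ c, Dp (f + n + 2) w c ∧ (pre w c).count y = 1 := hy
    rcases hy1 with hy1 | ⟨c, hc, hcy⟩
    · exact absurd (Dp.simple hy1) hy'
    have hc' : ¬ Dp (f + n + 1) w c := fun h => hy' (Dp.step h hcy)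
    have hdc : d ∈ pre w c := pre_trans hdy (mem_pre_of_count hcy)
    obtain ⟨cs, hl, hch, hm, e, he, hed⟩ := ih f w d c hd hd' hc hc' hdc (by
      intro t ht hdt
      have h1 := H t ht hdt
      have h2 : (pre w t).count y ≠ 1 := by
        intro h
        exact hy' (Dp.le (by omega) (Dp.step ht h))
      have h3 : 0 < (pre w t).count y := List.count_pos_iff.2 h1
      exact pre_of_count (x := y) hc.mem (by omega))
    refine ⟨c :: cs, by simp [hl]; omega, ⟨?_, hc.mem, hch⟩, ?_, e, ?_, hed⟩
    · intro z hz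
      rw [List.mem_singleton.1 hz]
      exact hcy
    · intro x hx
      rcases List.mem_cons.1 hx with rfl | h
      · exact hc
      · exact (hm x h).mono
    · rw [List.getElem?_cons_succ]
      exact he

end Pool.Agent.MWK.H36
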